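import Pool.Agent.H7.HD.Targets12
import Pool.Agent.H64.HDA.DN
import Pool.Agent.H3.HD.DM
import Pool.Agent.H1.HD9.Y5

/-! DN3 of hd8_modules: the ranks of the members of a sequence of measures. -/

open Ordinal Cardinal Order Set
open scoped ZFSet

universe u

namespace Pool.Agent.H39.HDB.DN3

open HD Pool.Agent.H64.HDA.DN
open Pool.Agent.H3.HD.DM (dz_MLZ mlt_iff)
open Pool.Agent.H1.HD9.Y5 (hod_iV)

/-! ## Definability -/

theorem do_mlt {en : Ordinal.{u} → ZFSet.{u}} (hen : EN en) :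
    DO fun w => MLt (w 0) (en (w 1)) (en (w 2)) := by
  refine ⟨fun v => ∃ x, ((v 1).IsOrdinal ∧ x = en (v 1).rank) ∧
    ∃ y, ((v 2).IsOrdinal ∧ y = en (v 2).rank) ∧ Pool.Agent.H3.HD.DM.MLZ (v 0) x y, ?_, ?_⟩
  · refine DZ.ex (R := fun x v => ((v 1).IsOrdinal ∧ x = en (v 1).rank) ∧
      ∃ y, ((v 2).IsOrdinal ∧ y = en (v 2).rank) ∧ Pool.Agent.H3.HD.DM.MLZ (v 0) x y)
      (DZ.and ?_ ?_)
    · exact hen.dz.ren (fun n => if n = 0 then 2 else 0)
    · refine DZ.ex (R := fun y v => ((v 3).IsOrdinal ∧ y = en (v 3).rank) ∧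
        Pool.Agent.H3.HD.DM.MLZ (v 1) (v 0) y) (DZ.and ?_ (dz_MLZ 2 1 0))
      exact hen.dz.ren (fun n => if n = 0 then 4 else 0)
  · intro w
    have h1 : (ov w 1).rank = w 1 := rank_toZFSet _
    have h2 : (ov w 2).rank = w 2 := rank_toZFSet _
    beta_reduce
    rw [h1, h2, mlt_iff]
    constructor
    · intro h
      exact ⟨_, ⟨ZFSet.isOrdinal_toZFSet _, rfl⟩, _, ⟨ZFSet.isOrdinal_toZFSet _, rfl⟩, h⟩
    · rintro ⟨x, ⟨-, rfl⟩, y, ⟨-, rfl⟩, h⟩
      exact h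

theorem do_eqen {en : Ordinal.{u} → ZFSet.{u}} (hen : EN en) :
    DO fun w => en (w 0) = en (w 1) := by
  refine ⟨fun v => ∃ x, ((v 0).IsOrdinal ∧ x = en (v 0).rank) ∧
    ((v 1).IsOrdinal ∧ x = en (v 1).rank), ?_, ?_⟩
  · refine DZ.ex (R := fun x v => ((v 0).IsOrdinal ∧ x = en (v 0).rank) ∧
      ((v 1).IsOrdinal ∧ x = en (v 1).rank)) (DZ.and ?_ ?_)
    · exact hen.dz.ren (fun n => if n = 0 then 1 else 0)
    · exact hen.dz.ren (fun n => if n = 0 then 2 else 0)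
  · intro w
    have h1 : (ov w 0).rank = w 0 := rank_toZFSet _
    have h2 : (ov w 1).rank = w 1 := rank_toZFSet _
    beta_reduce
    rw [h1, h2]
    constructor
    · intro h
      exact ⟨_, ⟨ZFSet.isOrdinal_toZFSet _, rfl⟩, ZFSet.isOrdinal_toZFSet _, h⟩
    · rintro ⟨x, ⟨-, rfl⟩, -, h⟩
      exact h

/-- the limit property of the codes `k` (as in the module DN) -/
theorem lim {en : Ordinal.{u} → ZFSet.{u}} (hHMI : T_HMI.{u}) (hLI : T_LI.{u})
    (hD : DO fun w => MGe (w 0) (w 1) (en (w 2))) (hen : EN en) {κ : Ordinal.{u}}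
    {c c' : Ordinal.{u} → Ordinal.{u}} {U U' W : ZFSet.{u}} (hc : DR fun a b => b = c a)
    (hc' : DR fun a b => b = c' a) (hU : NMe κ U) (hM : os κ {b | NMe b (en (c b))} ∈ U)
    (hU' : ∀ X : Set Ordinal.{u}, DS X → (os κ X ∈ U' ↔ os κ {b | os b X ∈ en (c b)} ∈ U))
    (hc1 : os κ {b | NMe b (en (c' b))} ∈ U')
    (hc2 : ∀ X : Set Ordinal.{u}, DS X → (os κ X ∈ W ↔ os κ {b | os b X ∈ en (c' b)} ∈ U')) :
    ∃ (k : Ordinal.{u} → Ordinal.{u}) (S : Set Ordinal.{u}), (DR fun a b => b = k a) ∧ DS S ∧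
      os κ S ∈ U ∧ (∀ b ∈ S, NMe b (en (c b)) ∧ NMe b (en (k b)) ∧ MLt b (en (k b)) (en (c b))) ∧
      os κ {b | NMe b (en (k b))} ∈ U ∧
      ∀ Y : Set Ordinal.{u}, DS Y → (os κ Y ∈ W ↔ os κ {b | os b Y ∈ en (k b)} ∈ U) := by
  have hMs : DS {b | NMe b (en (c b))} := ds_nm hHMI hD hc
  have hMs' : DS {b | NMe b (en (c' b))} := ds_nm hHMI hD hc'
  have h6 : os κ {b | os b {x | NMe x (en (c' x))} ∈ en (c b)} ∈ U := (hU' _ hMs').1 hc1
  have hds6 : DS {b | os b {x | NMe x (en (c' x))} ∈ en (c b)} := ds_mem hen hc hMs'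
  have hKK := do_KK hHMI hen hD hc hc'
  let k : Ordinal.{u} → Ordinal.{u} := fun b => sInf {d | KK en c c' d b}
  have hk : DR fun a b => b = k a := by
    have := do_sInf (S := fun z w => KK en c c' z (w 0)) hKK 1
    exact this
  have hkey : ∀ b, NMe b (en (c b)) → os b {x | NMe x (en (c' x))} ∈ en (c b) →
      NMe b (en (k b)) ∧ MLt b (en (k b)) (en (c b)) ∧
      ∀ Y : Set Ordinal.{u}, DS Y →
        (os b Y ∈ en (k b) ↔ os b {x | os x Y ∈ en (c' x)} ∈ en (c b)) := by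
    intro b hb hb'
    obtain ⟨h7, h8, h9⟩ := hLI en hen c' hc' b (en (c b)) hb hb'
    have hE : ∀ e, DS (E en e) := fun e => OD.ds ((hen.od _).2 ⟨e, rfl⟩)
    obtain ⟨d, hd⟩ := (hen.od _).1 h7.hod.od
    have hKd : KK en c c' d b := by
      unfold KK
      rw [hd]
      exact ⟨h7, fun e => h9 _ (hE e)⟩
    have hKk : KK en c c' (k b) b := csInf_mem (s := {d | KK en c c' d b}) ⟨d, hKd⟩
    have heq : en (k b) = lmz en c' b (en (c b)) :=
      nm_ext hen hKk.1 h7 fun e => (hKk.2 e).trans (h9 _ (hE e)).symm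
    rw [heq]
    exact ⟨h7, h8, h9⟩
  have hS : os κ ({b | NMe b (en (c b))} ∩ {b | os b {x | NMe x (en (c' x))} ∈ en (c b)}) ∈ U :=
    hU.int _ _ hMs hds6 hM h6
  have hSd := ds_inter hMs hds6
  have hMk : DS {b | NMe b (en (k b))} := ds_nm hHMI hD hk
  have h10 : os κ {b | NMe b (en (k b))} ∈ U :=
    hU.up _ _ hSd hMk hS fun b _ hb => (hkey b hb.1 hb.2).1
  have h11 : ∀ Y : Set Ordinal.{u}, DS Y →
      (os κ Y ∈ W ↔ os κ {b | os b Y ∈ en (k b)} ∈ U) := by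
    intro Y hY
    have hd1 : DS {x | os x Y ∈ en (c' x)} := ds_mem hen hc' hY
    have hd2 : DS {b | os b {x | os x Y ∈ en (c' x)} ∈ en (c b)} := ds_mem hen hc hd1
    have hd3 : DS {b | os b Y ∈ en (k b)} := ds_mem hen hk hY
    rw [hc2 Y hY, hU' _ hd1]
    constructor
    · intro h
      exact hU.up _ _ (ds_inter hSd hd2) hd3 (hU.int _ _ hSd hd2 hS h) fun b _ hb =>
        ((hkey b hb.1.1 hb.1.2).2.2 Y hY).2 hb.2
    · intro h
      exact hU.up _ _ (ds_inter hSd hd3) hd2 (hU.int _ _ hSd hd3 hS h) fun b _ hb =>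
        ((hkey b hb.1.1 hb.1.2).2.2 Y hY).1 hb.2
  exact ⟨k, _, hk, hSd, hS, fun b hb => ⟨hb.1, (hkey b hb.1 hb.2).1, (hkey b hb.1 hb.2).2.1⟩,
    h10, h11⟩

/-! ## Traces -/

theorem tr_tr (v : ℕ → ZFSet.{u}) {b κ : Ordinal.{u}} (h : b ≤ κ) : tr (tr v κ) b = tr v b := by
  funext n
  have hV : V_ b ⊆ V_ κ := fun z hz =>
    ZFSet.mem_vonNeumann.2 (lt_of_lt_of_le (ZFSet.mem_vonNeumann.1 hz) h)
  ext z
  unfold tr
  simp only [ZFSet.mem_inter]
  exact ⟨fun hz => ⟨hz.1.1, hz.2⟩, fun hz => ⟨⟨hz.1, hV hz.2⟩, hz.2⟩⟩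

theorem tr_cons (x : ZFSet.{u}) (v : ℕ → ZFSet.{u}) (b : Ordinal.{u}) :
    tr (cons x v) b = cons (x ∩ V_ b) (tr v b) := by
  funext n
  cases n <;> rfl

theorem vh_tr {v : ℕ → ZFSet.{u}} (hv : ∀ n, HOD (v n)) (κ : Ordinal.{u}) (n : ℕ) :
    VH κ (tr v κ n) :=
  ⟨hod_iV (hv n) κ, fun _ hz => (ZFSet.mem_inter.1 hz).2⟩

theorem vh_cons {κ : Ordinal.{u}} {x : ZFSet.{u}} {v : ℕ → ZFSet.{u}} (hx : VH κ x)
    (hv : ∀ n, VH κ (v n)) (n : ℕ) : VH κ (cons x v n) := by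
  cases n
  · exact hx
  · exact hv _

/-! ## The theorem -/

theorem X (hLIV : T_LIV.{u}) (hLOS : T_LOS.{u}) (hDER : T_DER.{u}) (hDMR : T_DMR.{u})
    (hHMI : T_HMI.{u}) (hLI : T_LI.{u}) (hMLC : T_MLC.{u}) (hDG : T_DG.{u}) : T_DN3.{u} := by
  intro en hen φ v hv κ c y U U' hc hU hM hU' hmr
  have hD := hDG en hen
  obtain ⟨-, hcode, hdef⟩ := hDER en hen
  have hvo : ∀ n, OD (v n) := fun n => (hv n).od
  have hER := (hdef φ v hvo).2.2
  have hMR := hDMR en hen φ v hvo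
  have hML := do_mlt hen
  -- the induction
  refine (hmr (fun y U' => VH κ y ∧ HMeas κ U' ∧ ∀ (c : Ordinal.{u} → Ordinal.{u})
    (U : ZFSet.{u}), (DR fun a b => b = c a) → NMe κ U → os κ {b | NMe b (en (c b))} ∈ U →
    (∀ X : Set Ordinal.{u}, DS X → (os κ X ∈ U' ↔ os κ {b | os b X ∈ en (c b)} ∈ U)) →
    os κ {b | MR φ v b (y ∩ V_ b) (en (c b))} ∈ U) ?_).2.2 c U hc hU hM hU'
  clear hmr hU' hM hU hc U U' y c
  intro y U' hy hU'm ih
  refine ⟨hy, hU'm, fun c U hc hU hM hU' => ?_⟩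
  obtain ⟨ey, hey, hey'⟩ := hcode y hy.1.od
  -- definability of the set in question
  have hN : ∀ (e k : Ordinal.{u} → Ordinal.{u}), (DR fun a b => b = e a) →
      (DR fun a b => b = k a) → DS {b | MR φ v b (en (e b)) (en (k b))} := by
    intro e k he hk
    have h1 : DO fun w => ∃ p, p = e (w 0) ∧ ∃ q, q = k (w 0) ∧ MR φ v (w 0) (en p) (en q) := by
      refine DO.ex (R := fun p w => p = e (w 0) ∧ ∃ q, q = k (w 0) ∧ MR φ v (w 0) (en p) (en q))
        ((DO.s2 (X := fun a b => b = e a) he 1 0).and ?_)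
      refine DO.ex (R := fun q w => q = k (w 1) ∧ MR φ v (w 1) (en (w 0)) (en q))
        ((DO.s2 (X := fun a b => b = k a) hk 2 0).and ?_)
      exact DO.s3 (X := fun a b c => MR φ v a (en b) (en c)) hMR 2 1 0
    exact h1.congr fun w => by simp
  have hNy : {b | MR φ v b (y ∩ V_ b) (en (c b))} = {b | MR φ v b (en (ey b)) (en (c b))} := by
    ext b
    rw [mem_ofPred_eq, mem_ofPred_eq, hey']
  have hNd : DS {b | MR φ v b (y ∩ V_ b) (en (c b))} := by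
    rw [hNy]
    exact hN ey c hey hc
  -- the relation `A δ b`
  let A : Ordinal.{u} → Ordinal.{u} → Prop := fun δ b =>
    ER φ (tr v b) b (en δ) (en (ey b)) ∧ ¬ ∃ z, MR φ v b (en δ) (en z) ∧
      MLt b (en z) (en (c b))
  have hA : DR A := by
    have h1 : DO fun w => ∃ p, p = ey (w 1) ∧ ER φ (tr v (w 1)) (w 1) (en (w 0)) (en p) := by
      refine DO.ex (R := fun p w => p = ey (w 1) ∧ ER φ (tr v (w 1)) (w 1) (en (w 0)) (en p))
        ((DO.s2 (X := fun a b => b = ey a) hey 2 0).and ?_)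
      exact DO.s3 (X := fun a b c => ER φ (tr v a) a (en b) (en c)) hER 2 1 0
    have h2 : DO fun w => ∃ z, MR φ v (w 1) (en (w 0)) (en z) ∧ ∃ q, q = c (w 1) ∧
        MLt (w 1) (en z) (en q) := by
      refine DO.ex (R := fun z w => MR φ v (w 1) (en (w 0)) (en z) ∧ ∃ q, q = c (w 1) ∧
        MLt (w 1) (en z) (en q)) (DO.and ?_ ?_)
      · exact DO.s3 (X := fun a b c => MR φ v a (en b) (en c)) hMR 2 1 0
      · refine DO.ex (R := fun q w => q = c (w 2) ∧ MLt (w 2) (en (w 0)) (en q))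
          ((DO.s2 (X := fun a b => b = c a) hc 3 0).and ?_)
        exact DO.s3 (X := fun a b c => MLt a (en b) (en c)) hML 3 1 0
    refine (h1.and h2.not).congr fun w => ?_
    simp only [A, exists_eq_left]
  have hMs : DS {b | NMe b (en (c b))} := ds_nm hHMI hD hc
  by_contra hcon
  have h1 := nm_not hU hNd hcon
  have h2 := hU.int _ _ hMs (ds_compl hNd) hM h1
  have hTd := ds_inter hMs (ds_compl hNd)
  let dd : Ordinal.{u} → Ordinal.{u} := fun b => sInf {δ | A δ b}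
  have hdd : DR fun a b => b = dd a := by
    have := do_sInf (S := fun z w => A z (w 0)) hA 1
    exact this
  have h3 : ∀ b, b ∈ {b | NMe b (en (c b))} ∩ {b | MR φ v b (y ∩ V_ b) (en (c b))}ᶜ →
      A (dd b) b := by
    rintro b ⟨hb1, hb2⟩
    have hb3 : ¬ MR φ v b (y ∩ V_ b) (en (c b)) := hb2
    have hb4 : HMeas b (en (c b)) := (hHMI b _).2 hb1
    have hb5 : VH b (y ∩ V_ b) := ⟨hod_iV hy.1 b, fun _ hz => (ZFSet.mem_inter.1 hz).2⟩
    rw [mr_iff] at hb3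
    push Not at hb3
    obtain ⟨d, hd, hd'⟩ := hb3 hb5 hb4
    obtain ⟨δ, rfl⟩ := (hen.od _).1 hd.1.1.od
    have hAδ : A δ b := by
      refine ⟨?_, ?_⟩
      · rw [hey']
        exact hd
      · rintro ⟨z, hz1, hz2⟩
        exact hd' _ hz1 hz2
    exact csInf_mem (s := {δ | A δ b}) ⟨δ, hAδ⟩
  -- the limit of the counterexamples
  have hVHd : DS {b | VH b (en (dd b))} := by
    have h4 : DO fun w => ∃ p, p = dd (w 0) ∧ VH (w 0) (en p) := by
      refine DO.ex (R := fun p w => p = dd (w 0) ∧ VH (w 0) (en p))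
        ((DO.s2 (X := fun a b => b = dd a) hdd 1 0).and ?_)
      exact DO.s2 (X := fun a b => VH a (en b)) (hDER en hen).1 1 0
    exact h4.congr fun w => by simp
  have h5 : os κ {b | VH b (en (dd b))} ∈ U :=
    hU.up _ _ hTd hVHd h2 fun b _ hb => (h3 b hb).1.1
  obtain ⟨D, hDV, hDU⟩ := hLIV en hen κ U hU dd hdd h5
  obtain ⟨eD, heD, heD'⟩ := hcode D hDV.1.od
  have hDd : DS {b | D ∩ V_ b = en (dd b)} := by
    have h4 : DO fun w => ∃ p, p = eD (w 0) ∧ ∃ q, q = dd (w 0) ∧ en p = en q := by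
      refine DO.ex (R := fun p w => p = eD (w 0) ∧ ∃ q, q = dd (w 0) ∧ en p = en q)
        ((DO.s2 (X := fun a b => b = eD a) heD 1 0).and ?_)
      refine DO.ex (R := fun q w => q = dd (w 1) ∧ en (w 0) = en q)
        ((DO.s2 (X := fun a b => b = dd a) hdd 2 0).and ?_)
      exact DO.s2 (X := fun a b => en a = en b) (do_eqen hen) 1 0
    refine h4.congr fun w => ?_
    simp only [exists_eq_left, mem_ofPred_eq, heD']
  have h6 := hU.int _ _ hTd hDd h2 hDU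
  have h6d := ds_inter hTd hDd
  -- the relation between `D` and `y`
  have hER1 : ER φ (tr v κ) κ D y := by
    refine ⟨hDV, hy, ?_⟩
    have hvh : ∀ n, VH κ (cons D (cons y (tr v κ)) n) :=
      vh_cons hDV (vh_cons hy (vh_tr hv κ))
    rw [hLOS κ U hU φ _ hvh]
    have hSd := (hdef φ (cons D (cons y (tr v κ))) fun n => (hvh n).1.od).1
    have hSd' : DS {b | Sat (VH b) φ (tr (cons D (cons y (tr v κ))) b)} := hSd
    refine hU.up _ _ h6d hSd' h6 fun b hb hb' => ?_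
    obtain ⟨hb1, hb2⟩ := hb'
    have h7 := (h3 b hb1).1.2.2
    rw [hey', ← (show D ∩ V_ b = en (dd b) from hb2)] at h7
    rw [mem_ofPred_eq, tr_cons, tr_cons, tr_tr v hb.le]
    exact h7
  obtain ⟨W, ⟨-, hWm, hW⟩, hWU⟩ := ih D hER1
  have hNU' : NMe κ U' := (hHMI κ U').1 hU'm
  obtain ⟨c', hc', hc1, hc2⟩ := hMLC en hen κ W U' hNU' hWU
  obtain ⟨k, S, hk, hSd, hS, hSk, h10, h11⟩ := lim hHMI hLI hD hen hc hc' hU hM hU' hc1 hc2
  have h12 := hW k U hk hU h10 h11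
  have hNk : DS {b | MR φ v b (D ∩ V_ b) (en (k b))} := by
    have h13 : {b | MR φ v b (D ∩ V_ b) (en (k b))} = {b | MR φ v b (en (eD b)) (en (k b))} := by
      ext b
      rw [mem_ofPred_eq, mem_ofPred_eq, heD']
    rw [h13]
    exact hN eD k heD hk
  have h14 := hU.int _ _ (ds_inter hSd h6d) hNk (hU.int _ _ hSd h6d hS h6) h12
  obtain ⟨b, -, ⟨hbS, hbT, hbD⟩, hbN⟩ := nm_ne hU (ds_inter (ds_inter hSd h6d) hNk) h14
  refine (h3 b hbT).2 ⟨k b, ?_, (hSk b hbS).2.2⟩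
  rw [← (show D ∩ V_ b = en (dd b) from hbD)]
  exact hbN

end Pool.Agent.H39.HDB.DN3
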